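import Pool.Agent.TH22.UF.Reverse

/-!
# Braidings of fusion categories with unitary F-matrices
-/

set_option autoImplicit false
set_option linter.unusedSectionVars false

open CategoryTheory CategoryTheory.Limits MonoidalCategory

namespace Pool.Agent.NH2.BU

open Pool.Agent.TH22.UF

universe v u

section psd

open scoped ComplexOrder MatrixOrder Matrix.Norms.L2Operator

lemma exists_bound' {n m : Type*} [Fintype n] [Fintype m] [DecidableEq n] [DecidableEq m]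
    (M : Matrix n m ℂ) :
    ∃ K₀ : ℝ, ∀ K : ℝ, K₀ ≤ K → ∃ A : Matrix n n ℂ,
      (K : ℂ) • (1 : Matrix n n ℂ) - M * M.conjTranspose = A.conjTranspose * A := by
  refine ⟨‖M * M.conjTranspose‖, fun K hK => ?_⟩
  have h0 : IsSelfAdjoint (M * M.conjTranspose) := by
    rw [IsSelfAdjoint, Matrix.star_eq_conjTranspose, Matrix.conjTranspose_mul,
      Matrix.conjTranspose_conjTranspose]
  have h1 : M * M.conjTranspose ≤ algebraMap ℝ (Matrix n n ℂ) ‖M * M.conjTranspose‖ :=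
    h0.le_algebraMap_norm_self
  have h2 : algebraMap ℝ (Matrix n n ℂ) ‖M * M.conjTranspose‖ ≤ algebraMap ℝ (Matrix n n ℂ) K :=
    algebraMap_mono _ hK
  have h3 : 0 ≤ algebraMap ℝ (Matrix n n ℂ) K - M * M.conjTranspose := sub_nonneg.2 (h1.trans h2)
  obtain ⟨A, hA⟩ := CStarAlgebra.nonneg_iff_eq_star_mul_self.mp h3
  refine ⟨A, ?_⟩
  rw [← Matrix.star_eq_conjTranspose, ← hA]
  congr 1
  rw [Algebra.algebraMap_eq_smul_one]
  ext i j
  simp

end psd

section hobj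

variable {C : Type u} [Category.{v} C] [Abelian C] [Linear ℂ C] [HasFiniteBiproducts C]
  [MonoidalCategory C] [MonoidalPreadditive C] [MonoidalLinear ℂ C]

variable {r : ℕ} {S : Fin r → C} {𝒟 : UData S}

lemma bdd_cstar [MonoidalPreadditive (HObj 𝒟)] [MonoidalLinear ℂ (HObj 𝒟)] :
    (cstar (𝒟 := 𝒟)).Bdd := by
  classical
  intro Z Z' f
  choose K₀ hK₀ using fun a => exists_bound' (mat 𝒟.B Z.str Z'.str f a)
  have hK : ∀ a, K₀ a ≤ ∑ b, |K₀ b| := fun a =>
    (le_abs_self _).trans (Finset.single_le_sum (f := fun b => |K₀ b|)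
      (fun b _ => abs_nonneg _) (Finset.mem_univ a))
  choose A hA using fun a => hK₀ a _ (hK a)
  let g : Z.X ⟶ Z.X := ofMat Z.str Z.str fun a => (A a).conjTranspose
  refine ⟨∑ b, |K₀ b|, (show Z ⟶ Z from g), ?_⟩
  have key : (((∑ b, |K₀ b| : ℝ) : ℂ) • 𝟙 Z.X : Z.X ⟶ Z.X) =
      CategoryStruct.comp (obj := C) (show Z.X ⟶ Z'.X from f) (adj 𝒟.B Z.str Z'.str f) +
        CategoryStruct.comp (obj := C) g (adj 𝒟.B Z.str Z.str g) := by
    apply mat_injective 𝒟.B Z.str Z.str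
    funext a
    rw [mat_add, mat_comp 𝒟.B Z.str Z'.str Z.str, mat_comp 𝒟.B Z.str Z.str Z.str, mat_adj, mat_adj,
      mat_ofMat, mat_smul, mat_id, Matrix.conjTranspose_conjTranspose, ← hA a]
    abel
  exact key

/-- The members of the list as decomposed objects. -/
noncomputable def tObj (𝒟 : UData S) (a : Fin r) : HObj 𝒟 := ⟨S a, isoStr a (Iso.refl (S a))⟩

lemma adj_inc {Y : HObj 𝒟} (a : Fin r) (t : Y.str.J a) :
    adj 𝒟.B (tObj 𝒟 a).str Y.str (Y.str.inc a t) = Y.str.prj a t := by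
  have h := adj_prj_inc 𝒟.B (tObj 𝒟 a).str Y.str a (⟨rfl⟩ : PLift (a = a)) t
  have e1 : (tObj 𝒟 a).str.prj a (⟨rfl⟩ : PLift (a = a)) = 𝟙 (S a) := by
    simp [tObj, isoStr]
  have e2 : (tObj 𝒟 a).str.inc a (⟨rfl⟩ : PLift (a = a)) = 𝟙 (S a) := by
    simp [tObj, isoStr]
  have e3 : (tObj 𝒟 a).str.prj a (⟨rfl⟩ : PLift (a = a)) ≫ Y.str.inc a t = Y.str.inc a t := by
    rw [e1]
    exact Category.id_comp _
  have e4 : Y.str.prj a t ≫ (tObj 𝒟 a).str.inc a (⟨rfl⟩ : PLift (a = a)) = Y.str.prj a t := by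
    rw [e2]
    exact Category.comp_id _
  rw [e3, e4] at h
  exact h

lemma finDec_cstar [MonoidalPreadditive (HObj 𝒟)] [MonoidalLinear ℂ (HObj 𝒟)] :
    (cstar (𝒟 := 𝒟)).FinDec (tObj 𝒟) := by
  classical
  intro Y
  let e := Fintype.equivFin (Σ a, Y.str.J a)
  refine ⟨Fintype.card (Σ a, Y.str.J a), fun k => (e.symm k).1,
    fun k => (show tObj 𝒟 (e.symm k).1 ⟶ Y from Y.str.inc _ (e.symm k).2), ?_⟩
  have h1 : ∀ k : Fin (Fintype.card (Σ a, Y.str.J a)),
      (CategoryStruct.comp (obj := HObj 𝒟)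
        ((cstar (𝒟 := 𝒟)).star (show tObj 𝒟 (e.symm k).1 ⟶ Y from Y.str.inc _ (e.symm k).2))
        (show tObj 𝒟 (e.symm k).1 ⟶ Y from Y.str.inc _ (e.symm k).2) : Y ⟶ Y) =
      (show Y ⟶ Y from CategoryStruct.comp (obj := C) (Y.str.prj _ (e.symm k).2)
        (Y.str.inc _ (e.symm k).2)) := by
    intro k
    change CategoryStruct.comp (obj := C) (adj 𝒟.B (tObj 𝒟 (e.symm k).1).str Y.str
      (Y.str.inc _ (e.symm k).2)) (Y.str.inc _ (e.symm k).2) = _
    rw [adj_inc]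
    rfl
  rw [Finset.sum_congr rfl fun k _ => h1 k]
  have h2 := Equiv.sum_comp e.symm (fun x : Σ a, Y.str.J a =>
    (show Y ⟶ Y from CategoryStruct.comp (obj := C) (Y.str.prj _ x.2) (Y.str.inc _ x.2)))
  refine h2.trans ?_
  rw [Fintype.sum_sigma]
  exact Y.str.total

end hobj

section braid

variable {D : Type u} [Category.{v} D] [Preadditive D] [Linear ℂ D] [MonoidalCategory D]
  [MonoidalPreadditive D] [MonoidalLinear ℂ D] [BraidedCategory D] {s : CStarTensorStructure D}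

open CStarTensorStructure

/-- The half-braiding of an object of a braided category. -/
def hb (X : D) : HalfBr X where
  c Y := β_ X Y
  nat f := BraidedCategory.braiding_naturality_right X f
  hex Y Z := by
    have h := BraidedCategory.hexagon_forward X Y Z
    rw [← cancel_epi (α_ X Y Z).hom, ← cancel_mono (α_ Y Z X).hom]
    simp

theorem star_braiding {r : ℕ} {T : Fin r → D} (hT : s.FinDec T) (hB : s.Bdd)
    (hS : ∀ a, Scal (T a)) (h1 : Scal (𝟙_ D))
    (hdual : ∀ Y : D, ∃ Y' : D, Nonempty (ExactPairing Y Y')) (X Y : D) :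
    s.star (β_ X Y).hom = (β_ X Y).inv := by
  obtain ⟨n, b, ι, hι⟩ := hT X
  obtain ⟨Y', ⟨hY⟩⟩ := hdual Y
  have h2 : ∀ a, (β_ (T a) Y).hom ≫ s.star (β_ (T a) Y).hom = 𝟙 _ := by
    intro a
    have := s.star_halfBr hT hB (hS a) h1 (hb (T a)) (Y := Y) (Y' := Y')
    change s.star (β_ (T a) Y).hom = (β_ (T a) Y).inv at this
    rw [this, Iso.hom_inv_id]
  have h3 : ∀ k, (ι k ▷ Y) ≫ (β_ X Y).hom ≫ s.star (β_ X Y).hom = ι k ▷ Y := by
    intro k
    have e1 : (ι k ▷ Y) ≫ (β_ X Y).hom = (β_ (T (b k)) Y).hom ≫ (Y ◁ ι k) :=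
      BraidedCategory.braiding_naturality_left (ι k) Y
    have e2 : (Y ◁ ι k) ≫ s.star (β_ X Y).hom = s.star (β_ (T (b k)) Y).hom ≫ (ι k ▷ Y) := by
      have := congrArg s.star (BraidedCategory.braiding_naturality_left (s.star (ι k)) Y)
      simp only [s.star_comp, s.star_whiskerLeft, s.star_whiskerRight, s.star_star] at this
      exact this.symm
    rw [← Category.assoc, e1, Category.assoc, e2, ← Category.assoc, h2, Category.id_comp]
  have h4 : (β_ X Y).hom ≫ s.star (β_ X Y).hom = 𝟙 _ := by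
    have e1 : (𝟙 X ▷ Y) ≫ (β_ X Y).hom ≫ s.star (β_ X Y).hom = 𝟙 X ▷ Y := by
      rw [← hι, sum_whiskerRight, Preadditive.sum_comp]
      refine Finset.sum_congr rfl fun k _ => ?_
      rw [comp_whiskerRight, Category.assoc, h3]
    simpa using e1
  rw [← cancel_epi (β_ X Y).hom, h4, Iso.hom_inv_id]

end braid

section final

open CStarTensorStructure

variable {C : Type u} [Category.{v} C] [Abelian C] [Linear ℂ C] [HasFiniteBiproducts C]
  [MonoidalCategory C] [MonoidalPreadditive C] [MonoidalLinear ℂ C] [RigidCategory C]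
  [BraidedCategory C]

variable {r : ℕ} {S : Fin r → C}

theorem scal_aux (𝒟 : UData S) {X : HObj 𝒟} (a : Fin r) (e : S a ≅ X.X) : Scal X := by
  refine ⟨fun f => ⟨𝒟.B.coef a (e.hom ≫ (show X.X ⟶ X.X from f) ≫ e.inv), ?_⟩, fun h => ?_⟩
  · have h1 := 𝒟.B.coef_smul a (e.hom ≫ (show X.X ⟶ X.X from f) ≫ e.inv)
    have h2 : (show X.X ⟶ X.X from f) =
        𝒟.B.coef a (e.hom ≫ (show X.X ⟶ X.X from f) ≫ e.inv) • 𝟙 X.X := by
      have h3 : e.inv ≫ (e.hom ≫ (show X.X ⟶ X.X from f) ≫ e.inv) ≫ e.hom =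
          (show X.X ⟶ X.X from f) := by simp
      conv_lhs => rw [← h3, h1]
      simp
    exact h2
  · have h1 : (𝟙 X.X : X.X ⟶ X.X) = 0 := h
    have h2 : 𝟙 (S a) = 0 := by
      have h3 : e.hom ≫ 𝟙 X.X ≫ e.inv = 𝟙 (S a) := by simp
      rw [← h3, h1]
      simp
    have h3 := 𝒟.B.coef_id a
    rw [h2, map_zero] at h3
    exact zero_ne_one h3

theorem isBraidedUnitary_of_unitaryF (hC : IsFusionCategory C) (hS : IsSimpleList S)
    (g : Gauge S) (hg : g.UnitaryF) : IsBraidedUnitary C := by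
  obtain ⟨𝒟⟩ := exists_udata hC hS g hg
  have hstr := exists_hstr hS 𝒟.B hC.semisimple
  have : (forgetF (𝒟 := 𝒟)).EssSurj := ⟨fun X => ⟨⟨X, (hstr X).some⟩, ⟨Iso.refl _⟩⟩⟩
  have : MonoidalPreadditive (HObj 𝒟) := monoidalPreadditive_of_faithful forgetF
  have : MonoidalLinear ℂ (HObj 𝒟) := MonoidalLinear.ofFaithful (R := ℂ) forgetF
  let _ : BraidedCategory (HObj 𝒟) := BraidedCategory.ofFullyFaithful forgetF
  let _ : (forgetF (𝒟 := 𝒟)).Braided :=
    { braided := fun X Y => by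
        have h1 : β_ X Y = (forgetF (𝒟 := 𝒟)).preimageIso
          ((Functor.Monoidal.μIso (forgetF (𝒟 := 𝒟)) _ _).symm ≪≫
            β_ ((forgetF (𝒟 := 𝒟)).obj X) ((forgetF (𝒟 := 𝒟)).obj Y) ≪≫
            Functor.Monoidal.μIso (forgetF (𝒟 := 𝒟)) _ _) := rfl
        rw [h1, Functor.preimageIso_hom, Functor.map_preimage]
        simp }
  refine ⟨HObj 𝒟, inferInstance, inferInstance, inferInstance, inferInstance, inferInstance,
    cstar, forgetF, inferInstance, inferInstance, inferInstance, { }, ?_⟩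
  refine star_braiding (finDec_cstar (𝒟 := 𝒟)) bdd_cstar
    (fun a => scal_aux 𝒟 a (Iso.refl _)) (scal_aux 𝒟 (X := 𝟙_ (HObj 𝒟)) 𝒟.a₀ 𝒟.u) fun Y => ?_
  refine ⟨⟨(Y.X)ᘁ, (hstr _).some⟩, ⟨?_⟩⟩
  have : ExactPairing ((forgetF (𝒟 := 𝒟)).obj Y)
      ((forgetF (𝒟 := 𝒟)).obj ⟨(Y.X)ᘁ, (hstr _).some⟩) :=
    inferInstanceAs (ExactPairing Y.X (Y.X)ᘁ)
  exact ExactPairing.ofFullyFaithful forgetF Y ⟨(Y.X)ᘁ, (hstr _).some⟩

end final

end Pool.Agent.NH2.BU
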